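import Pool.Agent.Helper81.MH.Goals

/-!
# Project MH, packet NID
-/

set_option autoImplicit false

namespace Pool.Agent.Helper5.MH

open Set Cardinal Filter
open Pool.Agent.Helper81.SB Pool.Agent.Helper81.MH

open Classical in
theorem NN_eq_of_leave {x : W → Set ℕ} {e : W → ℕ → W} {z : Set ℕ} {c : W} {t : ℕ → Bool} {u κ : ℕ}
    (h : κ ∈ LeaveS x e z c t u) (hu : u + 1 < κ) : NN x e c t κ = u := by
  unfold NN
  rw [Nat.find_eq_iff]
  refine ⟨Or.inr h.2.2, ?_⟩
  intro j hj hcon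
  rcases hcon with hcon | hcon
  · omega
  · exact hcon (h.2.1 j hj)

theorem goal_NID : Goal_NID := by
  intro hBAD hGEN x e he hS z hz
  obtain ⟨c₀, hc₀⟩ := hGEN x e he hS z hz
  refine ⟨c₀, fun c hc => ?_⟩
  obtain ⟨t, htype, htB⟩ := hc₀ c hc _ ((hBAD x e z c true).union (hBAD x e z c false))
  have key : ∀ v : Bool, ∀ n, ∃ u, n ≤ u ∧ t u = v ∧ (LeaveS x e z c t u).Infinite := by
    intro v n
    by_contra hcon
    push Not at hcon
    apply htB
    have hmem : t ∈ {t : ℕ → Bool | TypeOf x e z c t ∧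
        ∃ n, ∀ u, n ≤ u → t u = v → (LeaveS x e z c t u).Finite} :=
      ⟨htype, n, fun u hu hv => hcon u hu hv⟩
    cases v with
    | true => exact Or.inl hmem
    | false => exact Or.inr hmem
  refine ⟨t, true, ?_, ?_⟩
  · apply Set.infinite_of_forall_exists_gt
    intro n
    obtain ⟨u, hu, hv, hinf⟩ := key true (n + 1)
    obtain ⟨κ, hκ, hκu⟩ := hinf.exists_gt (u + 1)
    exact ⟨u, ⟨hv, κ, hκ.1, NN_eq_of_leave hκ hκu⟩, by omega⟩
  · obtain ⟨u, -, hv, hinf⟩ := key false 0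
    have h2 : (LeaveS x e z c t u \ Iic (u + 1)).Infinite := hinf.sdiff (Set.finite_Iic _)
    refine h2.mono ?_
    rintro κ ⟨hκ, hκu⟩
    have hκu' : u + 1 < κ := by
      simpa using hκu
    refine ⟨hκ.1, ?_⟩
    rw [NN_eq_of_leave hκ hκu', hv]
    decide

end Pool.Agent.Helper5.MH
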